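import Pool.Agent.Helper53.TM.Frame2
import Pool.Agent.Helper51.TM.LBM
import Pool.Agent.Helper51.FR.Let

/-!
Taylor model machine (MP_c75db0, star frame): the first half of `Helper51.FR.Let` (the record of a
letter) for machines `Mch`. The kernel definitions are those of `Helper51.FR`.
-/

set_option autoImplicit false
noncomputable section
namespace Pool.Agent.Helper91.TMK.FR

open Pool.Agent.Helper90.C75
open Pool.Agent.Helper90.KMO
open Pool.Agent.Helper91.TMK
open Pool.Agent.Helper91.TMK.LBM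
open Pool.Agent.Helper86.CX (Cx andB)
open Pool.Agent.Helper86.CT (Alg Mo er mk cst addM subM mulM conjM invM invOK)
open Pool.Agent.Helper62.TVM (V3m)
open Pool.Agent.Helper51.FR (BxM FrM LM ltM lt1)
open Pool.Agent.Helper6.MONO.W2 (cX cY cZ cR cB vC cRd cBd wC cW ep phi ev nc ns nsd nW nWd Sy)

section

variable {α : Type} {D : ℕ} {lf : Mch α} {A : Alg α} {t : ℕ → ℝ}

/-- the record of a letter against real numbers -/
structure LOK (D : ℕ) (lf : Mch α) (t : ℕ → ℝ) (p : ℕ) (v vd : Fin 3 → ℂ) (g : Sy)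
    (L : LM α) : Prop where
  E : TOK D lf t (ev (phi p) g.1 g.2) L.E
  P : TOK D lf t ((if g.1 then star (ep (phi p)) else ep (phi p)) ^ g.2) L.P
  w : TOK D lf t ((nW (phi p) v g : ℝ) : ℂ) L.w
  wd : TOK D lf t ((nWd (phi p) v vd g : ℝ) : ℂ) L.wd
  s : TW D lf t (ns (phi p) v g.1 g.2) L.s
  sd : TW D lf t (nsd (phi p) vd g.1 g.2) L.sd

theorem LOK_lt (hA : AOK D lf A) (hP : PT D t) {p : ℕ} {W a b : ℝ} {x : BxM α} {f : FrM α}
    (hx : BxOK D lf t p W a b x) (hf : FrOK D lf t p W a b f)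
    (hR : 0 < W ^ 2 - cX p W a b ^ 2 - cY p a b ^ 2) (hW : 2 < W) (g : Sy) :
    LOK D lf t p (vC p W a b) (wC p W a b) g (ltM A x f g.1 g.2) := by
  have hE := TOK_ev hA hP hx.e g.1 g.2
  exact ⟨hE, TOK_er hA hP hx.e g.1 g.2, TOK_ncw hA hP hx hf hR.le (by linarith) hE,
    TOK_ncd hA hP hx hR hW hE, TW_ns hA hP hE (TOK_nc hA hP hE hf.v),
    TW_nsd hA hP hE (TOK_nc hA hP hE hf.w)⟩

theorem cst_nat (hA : AOK D lf A) (hP : PT D t) (n : ℕ) :
    TOK D lf t (((n : ℝ) / UU : ℝ) : ℂ) (cst A n (nat_lit 0)) := by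
  refine TOK.cst' hA hP ?_
  have := UUc_ne
  push_cast
  field_simp

end

end Pool.Agent.Helper91.TMK.FR
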