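import Pool.Agent.Helper53.TM.Frame
import Pool.Agent.Helper51.FR.Frame2

/-!
Taylor model machine (MP_c75db0, star frame): `Helper51.FR.Frame2` for machines `Mch`. The kernel
definitions and the lemmas `nc_sq`, `nc_wd` are those of `Helper51.FR`.
-/

set_option autoImplicit false
noncomputable section
namespace Pool.Agent.Helper91.TMK.FR

open Pool.Agent.Helper90.C75
open Pool.Agent.Helper90.KMO
open Pool.Agent.Helper91.TMK
open Pool.Agent.Helper86.CT (Alg Mo er mk cst addM subM mulM conjM invM invOK)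
open Pool.Agent.Helper62.SQM (resS sq1 sq2 sqM cenOK sqOK)
open Pool.Agent.Helper62.TVM (cstC zeM negM hfM re2M nsqM dot3 V3m C3 C9 cstW cstV addW subW negW
  smW cjW jW hdW dtW addV subV negV smV hfV hdV mulV ctV trV ouV oV dlV drV dgV adV sbV mvV)
open Pool.Agent.Helper51.FR (BxM FrH FrM iC oM tM fX fY fZ fF fR fG fB fH fT fI fRd fBd fv fw fr5
  fr4 fr3 fr2 fr1 frC ok4 ok3 ok2 ok1 frOK andB_t' nc_sq nc_wd ncw ncd)
open Pool.Agent.Helper6.MONO (Kp)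
open Pool.Agent.Helper6.MONO.W2

section

variable {α : Type} {D : ℕ} {lf : Mch α} {A : Alg α} {t : ℕ → ℝ}

theorem TOK_ncw (hA : AOK D lf A) (hP : PT D t) {p : ℕ} {W a b : ℝ} {x : BxM α} {f : FrM α}
    {E : Mo α} (hx : BxOK D lf t p W a b x) (hf : FrOK D lf t p W a b f)
    (hR : 0 ≤ W ^ 2 - cX p W a b ^ 2 - cY p a b ^ 2) (hW : 0 < W) {s : Bool} {k : ℕ}
    (hE : TOK D lf t (ev (phi p) s k) E) :
    TOK D lf t ((‖nc (phi p) (vC p W a b) s k‖ ^ 2 : ℝ) : ℂ) (ncw A x.e E f) := by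
  rw [nc_sq hR hW s k]
  have h1 := (hx.e.mul hA hP hE).mul hA hP hf.Z
  refine tc (hf.Wm.sub hA (TOK_hf hA hP (TOK_re2 hA h1))) ?_
  have e1 : ep (phi p) * star (cZ p W a b) * ev (phi p) s k =
      ep (phi p) * ev (phi p) s k * star (cZ p W a b) := by ring
  rw [e1]
  push_cast
  ring

theorem TOK_ncd (hA : AOK D lf A) (hP : PT D t) {p : ℕ} {W a b : ℝ} {x : BxM α}
    {E : Mo α} (hx : BxOK D lf t p W a b x)
    (hR : 0 < W ^ 2 - cX p W a b ^ 2 - cY p a b ^ 2) (hW : 2 < W) {s : Bool} {k : ℕ}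
    (hE : TOK D lf t (ev (phi p) s k) E) :
    TOK D lf t ((2 * (nc (phi p) (wC p W a b) s k * star (nc (phi p) (vC p W a b) s k)).re : ℝ) :
      ℂ) (ncd A x.ki x.e E) := by
  rw [nc_wd hR hW s k]
  refine tc ((TOK_one hA hP).sub hA (hx.k.mul hA hP (TOK_re2 hA (hx.e.mul hA hP hE)))) ?_
  push_cast
  ring

/-- THE FRAME AT A POINT OF THE LINE -/
theorem frame_x (hA : AOK D lf A) (hP : PT D t) {p q r : ℕ} (hp : 3 ≤ p) (hq : 3 ≤ q)
    (hr : 3 ≤ r) {x : ℝ} (h1 : -2 < x) (h2 : x < 2) (ht : 0 ≤ tt (phi p) (Kp q) (Kp r) x)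
    {X : BxM α} {h : FrH α} (hv' : FrHv lf h) (hx : BxOK D lf t p (cW p q r x) (Kp q ^ 2) (Kp r ^ 2) X)
    (hok : frOK A X h = true) :
    FrOK D lf t p (cW p q r x) (Kp q ^ 2) (Kp r ^ 2) (frC A X h) ∧
      0 < cW p q r x ^ 2 - cX p (cW p q r x) (Kp q ^ 2) (Kp r ^ 2) ^ 2 -
        cY p (Kp q ^ 2) (Kp r ^ 2) ^ 2 ∧ 2 < cW p q r x :=
  frame_tok hA hP hv' hx (cS_pos hp hq hr h1 h2).2.le (by unfold cW; linarith) hok

end

end Pool.Agent.Helper91.TMK.FR
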