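import Pool.Agent.Helper91.TM.V
import Pool.Agent.Helper51.FR.Frame

/-!
Taylor model machine (MP_c75db0, star frame): `Helper51.FR.Frame` for machines `Mch`. The kernel
definitions are those of `Helper51.FR`.
-/

set_option autoImplicit false
noncomputable section
namespace Pool.Agent.Helper91.TMK.FR

open Pool.Agent.Helper90.C75
open Pool.Agent.Helper90.KMO
open Pool.Agent.Helper91.TMK
open Pool.Agent.Helper86.C75 (Z)
open Pool.Agent.Helper86.CX (Cx andB)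
open Pool.Agent.Helper86.CT (Alg Mo er mk cst addM subM mulM conjM invM invOK)
open Pool.Agent.Helper62.SQM (resS sq1 sq2 sqM cenOK sqOK)
open Pool.Agent.Helper62.TVM (cstC zeM negM hfM re2M nsqM dot3 V3m C3 C9 cstW cstV addW subW negW
  smW cjW jW hdW dtW addV subV negV smV hfV hdV mulV ctV trV ouV oV dlV drV dgV adV sbV mvV)
open Pool.Agent.Helper51.FR (BxM FrH FrM iC oM tM fX fY fZ fF fR fG fB fH fT fI fRd fBd fv fw fr5
  fr4 fr3 fr2 fr1 frC ok4 ok3 ok2 ok1 frOK andB_t')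
open Pool.Agent.Helper6.MONO (Kp)
open Pool.Agent.Helper6.MONO.W2 (cX cY cZ cR cB vC cRd cBd wC cW ep phi ev nc star_cZ)

/-! ### the real side -/

section

variable {α : Type} {D : ℕ} {lf : Mch α} {A : Alg α} {t : ℕ → ℝ}

/-- the hints are valid numbers -/
structure FrHv (lf : Mch α) (h : FrH α) : Prop where
  sR : lf.vl h.sR
  sB : lf.vl h.sB
  sT : lf.vl h.sT

theorem TOK_one (hA : AOK D lf A) (hP : PT D t) : TOK D lf t 1 (oM A) :=
  TOK.cst' hA hP (by unfold UU; norm_num)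
theorem TOK_two (hA : AOK D lf A) (hP : PT D t) : TOK D lf t 2 (tM A) :=
  TOK.cst' hA hP (by unfold UU; norm_num)
theorem TOK_i (hA : AOK D lf A) (hP : PT D t) : TOK D lf t Complex.I (cstC A iC (nat_lit 0)) := by
  refine TOK_cstC hA hP (le_of_eq ?_)
  have e : (UU : ℂ) * Complex.I - cz iC = 0 := by
    apply Complex.ext
    · show _ = (0 : ℝ)
      simp [cz, iC, zv_p, UU]
    · simp [cz, iC, zv_p, UU]
  rw [e, norm_zero]
  simp

/-- the models of a box against real numbers -/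
structure BxOK (D : ℕ) (lf : Mch α) (t : ℕ → ℝ) (p : ℕ) (W a b : ℝ) (x : BxM α) :
    Prop where
  a : TOK D lf t ((a : ℝ) : ℂ) x.a
  b : TOK D lf t ((b : ℝ) : ℂ) x.b
  W : TOK D lf t ((W : ℝ) : ℂ) x.W
  k : TOK D lf t ((1 / Kp p : ℝ) : ℂ) x.ki
  s : TOK D lf t ((1 / (2 * Real.sin (phi p)) : ℝ) : ℂ) x.si
  e : TOK D lf t (ep (phi p)) x.e

/-- THE MODELS OF THE FRAME -/
structure FrOK (D : ℕ) (lf : Mch α) (t : ℕ → ℝ) (p : ℕ) (W a b : ℝ) (f : FrM α) :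
    Prop where
  Z : TOK D lf t (star (cZ p W a b)) f.Z
  Wm : TOK D lf t ((W : ℝ) : ℂ) f.W
  R : TOK D lf t ((cR p W a b : ℝ) : ℂ) f.R
  v : TW D lf t (vC p W a b) f.v
  w : TW D lf t (wC p W a b) f.w

theorem frame_tok (hA : AOK D lf A) (hP : PT D t) {p : ℕ} {W a b : ℝ} {x : BxM α} {h : FrH α}
    (hv' : FrHv lf h) (hx : BxOK D lf t p W a b x) (h0 : 0 ≤ W ^ 2 - cX p W a b ^ 2 - cY p a b ^ 2)
    (h2 : 2 ≤ W) (hok : frOK A x h = true) :
    FrOK D lf t p W a b (frC A x h) ∧ 0 < W ^ 2 - cX p W a b ^ 2 - cY p a b ^ 2 ∧ 2 < W := by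
  have hX : TOK D lf t ((cX p W a b : ℝ) : ℂ) (fX A x) := by
    refine tc ((((hx.W.add hA hx.W).sub hA hx.a).sub hA hx.b).mul hA hP hx.k) ?_
    unfold cX
    push_cast
    ring
  have hY : TOK D lf t ((cY p a b : ℝ) : ℂ) (fY A x) := by
    refine tc ((hx.a.sub hA hx.b).mul hA hP hx.s) ?_
    unfold cY
    push_cast
    ring
  have hZ : TOK D lf t (star (cZ p W a b)) (fZ A (fX A x) (fY A x)) := by
    refine tc (hX.sub hA ((TOK_i hA hP).mul hA hP hY)) ?_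
    rw [star_cZ]
    ring
  have hF : TOK D lf t (((W ^ 2 - cX p W a b ^ 2 - cY p a b ^ 2 : ℝ)) : ℂ)
      (fF A x.W (fX A x) (fY A x)) := by
    refine tc (((hx.W.mul hA hP hx.W).sub hA (hX.mul hA hP hX)).sub hA (hY.mul hA hP hY)) ?_
    push_cast
    ring
  obtain ⟨o1, o2⟩ := andB_t' hok
  obtain ⟨hR, hR0⟩ := TOK_sqrt hA hP h0 hF hv'.sR o1
  obtain ⟨o3, o4⟩ := andB_t' o2
  obtain ⟨o5, o6⟩ := andB_t' o4
  obtain ⟨o7, o8⟩ := andB_t' o6
  obtain ⟨o9, o10⟩ := andB_t' o8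
  change TOK D lf t ((cR p W a b : ℝ) : ℂ) (fR A h (fF A x.W (fX A x) (fY A x))) at hR
  have hRp : 0 < cR p W a b := Real.sqrt_pos.2 hR0
  have hG : TOK D lf t (((W + cR p W a b) / 2 : ℝ) : ℂ)
      (fG A x.W (fR A h (fF A x.W (fX A x) (fY A x)))) := by
    refine tc (TOK_hf hA hP (hx.W.add hA hR)) ?_
    push_cast
    ring
  obtain ⟨hB, hB0⟩ := TOK_sqrt hA hP (by linarith : 0 ≤ (W + cR p W a b) / 2) hG hv'.sB o3
  change TOK D lf t ((cB p W a b : ℝ) : ℂ) (fB A h _) at hB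
  have hBp : 0 < cB p W a b := Real.sqrt_pos.2 hB0
  have hH : TOK D lf t ((W - 2 : ℝ) : ℂ) (fH A x.W) := by
    refine tc (hx.W.sub hA (TOK_two hA hP)) ?_
    push_cast
    ring
  obtain ⟨hT, hT0⟩ := TOK_sqrt hA hP (by linarith : 0 ≤ W - 2) hH hv'.sT o5
  change TOK D lf t ((Real.sqrt (W - 2) : ℝ) : ℂ) (fT A h _) at hT
  have hTp : 0 < Real.sqrt (W - 2) := Real.sqrt_pos.2 hT0
  have hiR := (TOK.inv hA hP hR o7).1
  have hiB := (TOK.inv hA hP (hB.add hA hB) o9).1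
  have hiT := (TOK.inv hA hP (hT.add hA hT) o10).1
  have cR0 : ((cR p W a b : ℝ) : ℂ) ≠ 0 := by exact_mod_cast hRp.ne'
  have cB0 : ((cB p W a b : ℝ) : ℂ) ≠ 0 := by exact_mod_cast hBp.ne'
  have cT0 : ((Real.sqrt (W - 2) : ℝ) : ℂ) ≠ 0 := by exact_mod_cast hTp.ne'
  have hRd : TOK D lf t ((cRd p W a b : ℝ) : ℂ) (fRd A x.W (fX A x) x.ki
      (fR A h (fF A x.W (fX A x) (fY A x)))) := by
    refine tc ((hx.W.sub hA (hX.mul hA hP (hx.k.add hA hx.k))).mul hA hP hiR) ?_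
    unfold cRd
    push_cast
    field_simp
    ring
  have hBd : TOK D lf t ((cBd p W a b : ℝ) : ℂ) (fBd A (fRd A x.W (fX A x) x.ki
      (fR A h (fF A x.W (fX A x) (fY A x)))) (fI A (fB A h (fG A x.W
      (fR A h (fF A x.W (fX A x) (fY A x))))))) := by
    refine tc (TOK_hf hA hP (((TOK_one hA hP).add hA hRd).mul hA hP hiB)) ?_
    unfold cBd
    push_cast
    field_simp
    ring
  have hv : TOK D lf t (vC p W a b 0) (fv A x.e (fZ A (fX A x) (fY A x)) (fI A (fB A h (fG A x.W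
      (fR A h (fF A x.W (fX A x) (fY A x))))))) := by
    refine tc (TOK_neg hA hP ((hx.e.mul hA hP hZ).mul hA hP hiB)) ?_
    show _ = -(ep (phi p) * star (cZ p W a b)) / (2 * (cB p W a b : ℂ))
    generalize star (cZ p W a b) = z
    field_simp
    ring
  have hw : TOK D lf t (wC p W a b 0) (fw A x.e x.ki (fI A (fB A h (fG A x.W
      (fR A h (fF A x.W (fX A x) (fY A x)))))) (fv A x.e (fZ A (fX A x) (fY A x)) (fI A (fB A h
      (fG A x.W (fR A h (fF A x.W (fX A x) (fY A x)))))))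
      (fBd A (fRd A x.W (fX A x) x.ki (fR A h (fF A x.W (fX A x) (fY A x)))) (fI A (fB A h
      (fG A x.W (fR A h (fF A x.W (fX A x) (fY A x)))))))) := by
    refine tc (TOK_neg hA hP (((hx.e.mul hA hP (hx.k.add hA hx.k)).mul hA hP hiB).add hA
      (hv.mul hA hP (hBd.mul hA hP (hiB.add hA hiB))))) ?_
    show _ = -(ep (phi p) * (((2 / Kp p : ℝ) : ℂ) / (2 * (cB p W a b : ℂ)) -
      star (cZ p W a b) * (cBd p W a b : ℂ) / (2 * (cB p W a b : ℂ) ^ 2)))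
    have e1 : vC p W a b 0 = -(ep (phi p) * star (cZ p W a b)) / (2 * (cB p W a b : ℂ)) := rfl
    rw [e1]
    have e2 : ((2 / Kp p : ℝ) : ℂ) = 2 * ((1 / Kp p : ℝ) : ℂ) := by
      push_cast
      ring
    rw [e2]
    generalize ((1 / Kp p : ℝ) : ℂ) = k
    generalize star (cZ p W a b) = z
    field_simp
    ring
  refine ⟨⟨hZ, hx.W, hR, ⟨hv, hB, hT⟩, ⟨hw, hBd, ?_⟩⟩, hR0, by linarith⟩
  refine tc hiT ?_
  show _ = ((1 / (2 * Real.sqrt (W - 2)) : ℝ) : ℂ)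
  push_cast
  field_simp
  ring

end

end Pool.Agent.Helper91.TMK.FR
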